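import Pool.Agent.V1134.HarmSD

/-!
# `SD_{2^n}` is harmonious for every `n ≥ 4`
-/

namespace Pool.Agent.Results.MP_3abf0f_al.SemidihedralHarmonious

open Pool.Agent.V1134.RSeq Pool.Agent.V1134.Harm Pool.Agent.V1134.HarmSD

theorem cast_sub (k : ℕ) (hk : 1 ≤ k) : ((4 * k - 1 : ℕ) : ZMod (8 * k)) = 4 * (k : ZMod (8 * k)) - 1 := by
  rw [Nat.cast_sub (by omega)]; push_cast; ring

theorem hρ (n : ℕ) (v : ℤ) : ((ρ n v : ℤ) : ZMod (8 * (n + 1))) =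
    ((4 * (n + 1) - 1 : ℕ) : ZMod (8 * (n + 1))) * (v : ZMod (8 * (n + 1))) := by
  have h8 : ((8 : ZMod (8 * (n + 1))) * ((n : ZMod (8 * (n + 1))) + 1)) = 0 := by
    have := ZMod.natCast_self (8 * (n + 1))
    push_cast at this
    exact this
  rw [cast_sub (n + 1) (by omega)]
  unfold ρ
  obtain ⟨w, hw⟩ := Int.even_or_odd' v
  rcases hw with rfl | rfl
  · rw [if_pos (by omega)]
    push_cast
    linear_combination (-(w : ZMod (8 * (n + 1)))) * h8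
  · rw [if_neg (by omega)]
    push_cast
    linear_combination (-(w : ZMod (8 * (n + 1)))) * h8

theorem next1 (n t : ℕ) (ht : t < n) : V n (8 * t + 7 + 1) = 2 * (t + 1) + 1 ∧ C n (8 * t + 7 + 1) = 0 := by
  by_cases h : t + 1 < n
  · have := V_1 n (t + 1) 0 h (by norm_num)
    rw [show 8 * (t + 1) + 0 = 8 * t + 7 + 1 by ring] at this
    rw [this.1, this.2]
    refine ⟨?_, rfl⟩
    simp only [V1]; push_cast; ring
  · have := V_2 n 0 (by norm_num)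
    rw [show 8 * n + 0 = 8 * t + 7 + 1 by omega] at this
    rw [this.1, this.2]
    refine ⟨?_, rfl⟩
    simp only [V2]; omega

theorem next2 (n : ℕ) : V n (8 * n + 3 + 1) = -1 ∧ C n (8 * n + 3 + 1) = 0 := by
  by_cases h : 0 < n
  · have := V_3 n 0 0 h (by norm_num)
    rw [show 8 * n + 4 + 8 * 0 + 0 = 8 * n + 3 + 1 by ring] at this
    rw [this.1, this.2]
    refine ⟨?_, rfl⟩
    simp only [V3]; push_cast
  · have := V_4 n 0
    rw [show 16 * n + 4 + 0 = 8 * n + 3 + 1 by omega] at this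
    rw [this.1, this.2]
    refine ⟨?_, rfl⟩
    simp only [V4]; omega

theorem next3 (n t : ℕ) (ht : t < n) : V n (8 * n + 4 + 8 * t + 7 + 1) = -2 * (t + 1) - 1 ∧
    C n (8 * n + 4 + 8 * t + 7 + 1) = 0 := by
  by_cases h : t + 1 < n
  · have := V_3 n (t + 1) 0 h (by norm_num)
    rw [show 8 * n + 4 + 8 * (t + 1) + 0 = 8 * n + 4 + 8 * t + 7 + 1 by ring] at this
    rw [this.1, this.2]
    refine ⟨?_, rfl⟩
    simp only [V3]; push_cast; ring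
  · have := V_4 n 0
    rw [show 16 * n + 4 + 0 = 8 * n + 4 + 8 * t + 7 + 1 by omega] at this
    rw [this.1, this.2]
    refine ⟨?_, rfl⟩
    simp only [V4]; omega

theorem wrap (n : ℕ) : V n (16 * n + 16) = V n 0 ∧ C n (16 * n + 16) = C n 0 := by
  have h1 := V_4 n 12
  rw [show 16 * n + 4 + 12 = 16 * n + 16 by ring] at h1
  rw [h1.1, h1.2]
  by_cases h : 0 < n
  · have := V_1 n 0 0 h (by norm_num)
    rw [show 8 * 0 + 0 = 0 by rfl] at this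
    rw [this.1, this.2]
    refine ⟨?_, rfl⟩
    simp only [V4, V1]; norm_num
  · have := V_2 n 0 (by norm_num)
    rw [show 8 * n + 0 = 0 by omega] at this
    rw [this.1, this.2]
    refine ⟨?_, rfl⟩
    simp only [V4, V2]; omega

theorem C_le (n s : ℕ) (hs : s ≤ 16 * n + 16) : C n s ≤ 1 := by
  rcases Nat.lt_or_ge s (16 * n + 16) with h | h
  · rcases V_spec n s h with h | h <;> omega
  · have : s = 16 * n + 16 := by omega
    subst this
    rw [(wrap n).2]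
    rcases V_spec n 0 (by omega) with h | h <;> omega

theorem step (n s : ℕ) (hs : s < 16 * n + 16) :
    (∃ e : ℤ, pr (ρ n) (V n s) (C n s) (V n (s + 1)) - Q n s = (8 * ((n : ℤ) + 1)) * e) ∧
    D n s = (C n s + C n (s + 1)) % 2 := by
  rcases pos_cases n s hs with ⟨t, j, ht, hj, rfl⟩ | ⟨j, hj, rfl⟩ | ⟨t, j, ht, hj, rfl⟩ | ⟨j, hj, rfl⟩
  · obtain ⟨h1, h2⟩ := V_1 n t j ht hj 
    obtain ⟨h3, h4⟩ := Q_1 n t j ht hj
    rw [h1, h2, h3, h4]
    clear h1 h2 h3 h4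
    interval_cases j
    · obtain ⟨h5, h6⟩ := V_1 n t 1 ht (by norm_num)
      rw [show 8 * t + 0 + 1 = 8 * t + 1 by ring, h5, h6]
      refine ⟨⟨1, ?_⟩, rfl⟩
      show V1 n t 0 + V1 n t 1 - Q1 n t 0 = _
      simp only [V1, Q1]
      omega
    · obtain ⟨h5, h6⟩ := V_1 n t 2 ht (by norm_num)
      rw [show 8 * t + 1 + 1 = 8 * t + 2 by ring, h5, h6]
      refine ⟨⟨1, ?_⟩, rfl⟩
      show V1 n t 1 + V1 n t 2 - Q1 n t 1 = _
      simp only [V1, Q1]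
      omega
    · obtain ⟨h5, h6⟩ := V_1 n t 3 ht (by norm_num)
      rw [show 8 * t + 2 + 1 = 8 * t + 3 by ring, h5, h6]
      refine ⟨⟨1, ?_⟩, rfl⟩
      show V1 n t 2 + ρ n (V1 n t 3) - Q1 n t 2 = _
      simp only [ρ, V1, Q1]
      split_ifs <;> omega
    · obtain ⟨h5, h6⟩ := V_1 n t 4 ht (by norm_num)
      rw [show 8 * t + 3 + 1 = 8 * t + 4 by ring, h5, h6]
      refine ⟨⟨0, ?_⟩, rfl⟩
      show V1 n t 3 + ρ n (V1 n t 4) - Q1 n t 3 = _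
      simp only [ρ, V1, Q1]
      split_ifs <;> omega
    · obtain ⟨h5, h6⟩ := V_1 n t 5 ht (by norm_num)
      rw [show 8 * t + 4 + 1 = 8 * t + 5 by ring, h5, h6]
      refine ⟨⟨1, ?_⟩, rfl⟩
      show V1 n t 4 + V1 n t 5 - Q1 n t 4 = _
      simp only [V1, Q1]
      omega
    · obtain ⟨h5, h6⟩ := V_1 n t 6 ht (by norm_num)
      rw [show 8 * t + 5 + 1 = 8 * t + 6 by ring, h5, h6]
      refine ⟨⟨1, ?_⟩, rfl⟩
      show V1 n t 5 + V1 n t 6 - Q1 n t 5 = _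
      simp only [V1, Q1]
      omega
    · obtain ⟨h5, h6⟩ := V_1 n t 7 ht (by norm_num)
      rw [show 8 * t + 6 + 1 = 8 * t + 7 by ring, h5, h6]
      refine ⟨⟨0, ?_⟩, rfl⟩
      show V1 n t 6 + ρ n (V1 n t 7) - Q1 n t 6 = _
      simp only [ρ, V1, Q1]
      split_ifs <;> omega
    · obtain ⟨h5, h6⟩ := next1 n t ht
      rw [h5, h6]
      refine ⟨⟨0, ?_⟩, rfl⟩
      show V1 n t 7 + ρ n ((2 * ((t : ℤ) + 1) + 1)) - Q1 n t 7 = _
      simp only [ρ, V1, Q1]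
      split_ifs <;> omega
  · obtain ⟨h1, h2⟩ := V_2 n j hj 
    obtain ⟨h3, h4⟩ := Q_2 n j hj
    rw [h1, h2, h3, h4]
    clear h1 h2 h3 h4
    interval_cases j
    · obtain ⟨h5, h6⟩ := V_2 n 1 (by norm_num)
      rw [show 8 * n + 0 + 1 = 8 * n + 1 by ring, h5, h6]
      refine ⟨⟨1, ?_⟩, rfl⟩
      show V2 n 0 + V2 n 1 - Q2 n 0 = _
      simp only [V2, Q2]
      omega
    · obtain ⟨h5, h6⟩ := V_2 n 2 (by norm_num)
      rw [show 8 * n + 1 + 1 = 8 * n + 2 by ring, h5, h6]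
      refine ⟨⟨1, ?_⟩, rfl⟩
      show V2 n 1 + ρ n (V2 n 2) - Q2 n 1 = _
      simp only [ρ, V2, Q2]
      split_ifs <;> omega
    · obtain ⟨h5, h6⟩ := V_2 n 3 (by norm_num)
      rw [show 8 * n + 2 + 1 = 8 * n + 3 by ring, h5, h6]
      refine ⟨⟨0, ?_⟩, rfl⟩
      show V2 n 2 + ρ n (V2 n 3) - Q2 n 2 = _
      simp only [ρ, V2, Q2]
      split_ifs <;> omega
    · obtain ⟨h5, h6⟩ := next2 n
      rw [h5, h6]
      refine ⟨⟨1, ?_⟩, rfl⟩
      show V2 n 3 + ρ n ((-1 : ℤ)) - Q2 n 3 = _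
      simp only [ρ, V2, Q2]
      split_ifs <;> omega
  · obtain ⟨h1, h2⟩ := V_3 n t j ht hj 
    obtain ⟨h3, h4⟩ := Q_3 n t j ht hj
    rw [h1, h2, h3, h4]
    clear h1 h2 h3 h4
    interval_cases j
    · obtain ⟨h5, h6⟩ := V_3 n t 1 ht (by norm_num)
      rw [show 8 * n + 4 + 8 * t + 0 + 1 = 8 * n + 4 + 8 * t + 1 by ring, h5, h6]
      refine ⟨⟨-1, ?_⟩, rfl⟩
      show V3 n t 0 + V3 n t 1 - Q3 n t 0 = _
      simp only [V3, Q3]
      omega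
    · obtain ⟨h5, h6⟩ := V_3 n t 2 ht (by norm_num)
      rw [show 8 * n + 4 + 8 * t + 1 + 1 = 8 * n + 4 + 8 * t + 2 by ring, h5, h6]
      refine ⟨⟨-1, ?_⟩, rfl⟩
      show V3 n t 1 + V3 n t 2 - Q3 n t 1 = _
      simp only [V3, Q3]
      omega
    · obtain ⟨h5, h6⟩ := V_3 n t 3 ht (by norm_num)
      rw [show 8 * n + 4 + 8 * t + 2 + 1 = 8 * n + 4 + 8 * t + 3 by ring, h5, h6]
      refine ⟨⟨0, ?_⟩, rfl⟩
      show V3 n t 2 + ρ n (V3 n t 3) - Q3 n t 2 = _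
      simp only [ρ, V3, Q3]
      split_ifs <;> omega
    · obtain ⟨h5, h6⟩ := V_3 n t 4 ht (by norm_num)
      rw [show 8 * n + 4 + 8 * t + 3 + 1 = 8 * n + 4 + 8 * t + 4 by ring, h5, h6]
      refine ⟨⟨1, ?_⟩, rfl⟩
      show V3 n t 3 + ρ n (V3 n t 4) - Q3 n t 3 = _
      simp only [ρ, V3, Q3]
      split_ifs <;> omega
    · obtain ⟨h5, h6⟩ := V_3 n t 5 ht (by norm_num)
      rw [show 8 * n + 4 + 8 * t + 4 + 1 = 8 * n + 4 + 8 * t + 5 by ring, h5, h6]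
      refine ⟨⟨-1, ?_⟩, rfl⟩
      show V3 n t 4 + V3 n t 5 - Q3 n t 4 = _
      simp only [V3, Q3]
      omega
    · obtain ⟨h5, h6⟩ := V_3 n t 6 ht (by norm_num)
      rw [show 8 * n + 4 + 8 * t + 5 + 1 = 8 * n + 4 + 8 * t + 6 by ring, h5, h6]
      refine ⟨⟨-1, ?_⟩, rfl⟩
      show V3 n t 5 + V3 n t 6 - Q3 n t 5 = _
      simp only [V3, Q3]
      omega
    · obtain ⟨h5, h6⟩ := V_3 n t 7 ht (by norm_num)
      rw [show 8 * n + 4 + 8 * t + 6 + 1 = 8 * n + 4 + 8 * t + 7 by ring, h5, h6]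
      refine ⟨⟨0, ?_⟩, rfl⟩
      show V3 n t 6 + ρ n (V3 n t 7) - Q3 n t 6 = _
      simp only [ρ, V3, Q3]
      split_ifs <;> omega
    · obtain ⟨h5, h6⟩ := next3 n t ht
      rw [h5, h6]
      refine ⟨⟨0, ?_⟩, rfl⟩
      show V3 n t 7 + ρ n ((-2 * ((t : ℤ) + 1) - 1)) - Q3 n t 7 = _
      simp only [ρ, V3, Q3]
      split_ifs <;> omega
  · obtain ⟨h1, h2⟩ := V_4 n j 
    obtain ⟨h3, h4⟩ := Q_4 n j
    rw [h1, h2, h3, h4]
    clear h1 h2 h3 h4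
    interval_cases j
    · obtain ⟨h5, h6⟩ := V_4 n 1
      rw [show 16 * n + 4 + 0 + 1 = 16 * n + 4 + 1 by ring, h5, h6]
      refine ⟨⟨0, ?_⟩, rfl⟩
      show V4 n 0 + V4 n 1 - Q4 n 0 = _
      simp only [V4, Q4]
      omega
    · obtain ⟨h5, h6⟩ := V_4 n 2
      rw [show 16 * n + 4 + 1 + 1 = 16 * n + 4 + 2 by ring, h5, h6]
      refine ⟨⟨1, ?_⟩, rfl⟩
      show V4 n 1 + V4 n 2 - Q4 n 1 = _
      simp only [V4, Q4]
      omega
    · obtain ⟨h5, h6⟩ := V_4 n 3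
      rw [show 16 * n + 4 + 2 + 1 = 16 * n + 4 + 3 by ring, h5, h6]
      refine ⟨⟨0, ?_⟩, rfl⟩
      show V4 n 2 + V4 n 3 - Q4 n 2 = _
      simp only [V4, Q4]
      omega
    · obtain ⟨h5, h6⟩ := V_4 n 4
      rw [show 16 * n + 4 + 3 + 1 = 16 * n + 4 + 4 by ring, h5, h6]
      refine ⟨⟨0, ?_⟩, rfl⟩
      show V4 n 3 + ρ n (V4 n 4) - Q4 n 3 = _
      simp only [ρ, V4, Q4]
      split_ifs <;> omega
    · obtain ⟨h5, h6⟩ := V_4 n 5
      rw [show 16 * n + 4 + 4 + 1 = 16 * n + 4 + 5 by ring, h5, h6]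
      refine ⟨⟨1, ?_⟩, rfl⟩
      show V4 n 4 + V4 n 5 - Q4 n 4 = _
      simp only [V4, Q4]
      omega
    · obtain ⟨h5, h6⟩ := V_4 n 6
      rw [show 16 * n + 4 + 5 + 1 = 16 * n + 4 + 6 by ring, h5, h6]
      refine ⟨⟨1, ?_⟩, rfl⟩
      show V4 n 5 + ρ n (V4 n 6) - Q4 n 5 = _
      simp only [ρ, V4, Q4]
      split_ifs <;> omega
    · obtain ⟨h5, h6⟩ := V_4 n 7
      rw [show 16 * n + 4 + 6 + 1 = 16 * n + 4 + 7 by ring, h5, h6]
      refine ⟨⟨1, ?_⟩, rfl⟩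
      show V4 n 6 + V4 n 7 - Q4 n 6 = _
      simp only [V4, Q4]
      omega
    · obtain ⟨h5, h6⟩ := V_4 n 8
      rw [show 16 * n + 4 + 7 + 1 = 16 * n + 4 + 8 by ring, h5, h6]
      refine ⟨⟨0, ?_⟩, rfl⟩
      show V4 n 7 + V4 n 8 - Q4 n 7 = _
      simp only [V4, Q4]
      omega
    · obtain ⟨h5, h6⟩ := V_4 n 9
      rw [show 16 * n + 4 + 8 + 1 = 16 * n + 4 + 9 by ring, h5, h6]
      refine ⟨⟨0, ?_⟩, rfl⟩
      show V4 n 8 + V4 n 9 - Q4 n 8 = _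
      simp only [V4, Q4]
      omega
    · obtain ⟨h5, h6⟩ := V_4 n 10
      rw [show 16 * n + 4 + 9 + 1 = 16 * n + 4 + 10 by ring, h5, h6]
      refine ⟨⟨0, ?_⟩, rfl⟩
      show V4 n 9 + ρ n (V4 n 10) - Q4 n 9 = _
      simp only [ρ, V4, Q4]
      split_ifs <;> omega
    · obtain ⟨h5, h6⟩ := V_4 n 11
      rw [show 16 * n + 4 + 10 + 1 = 16 * n + 4 + 11 by ring, h5, h6]
      refine ⟨⟨0, ?_⟩, rfl⟩
      show V4 n 10 + ρ n (V4 n 11) - Q4 n 10 = _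
      simp only [ρ, V4, Q4]
      split_ifs <;> omega
    · obtain ⟨h5, h6⟩ := V_4 n 12
      rw [show 16 * n + 4 + 11 + 1 = 16 * n + 4 + 12 by ring, h5, h6]
      refine ⟨⟨1, ?_⟩, rfl⟩
      show V4 n 11 + ρ n (V4 n 12) - Q4 n 11 = _
      simp only [ρ, V4, Q4]
      split_ifs <;> omega

theorem dvd_sym (M d : ℤ) (h : M ∣ d) : M ∣ -d := (dvd_neg).mpr h

theorem V_inj (n s u : ℕ) (hs : s < 16 * n + 16) (hu : u < 16 * n + 16)
    (h : (8 * ((n : ℤ) + 1)) ∣ V n s - V n u) (hc : C n s = C n u) : s = u := by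
  have hn : (0 : ℤ) ≤ n := by positivity
  rcases V_spec n s hs with ⟨a, b⟩ | ⟨a, b⟩ <;> rcases V_spec n u hu with ⟨a', b'⟩ | ⟨a', b'⟩
  · have r1 := VP0_range _ _ _ hn b
    have r2 := VP0_range _ _ _ hn b'
    rcases dvd_small _ (by positivity) _ h (by omega) (by omega) with h' | h' | h'
    · exact_mod_cast VP0_inj _ _ _ _ _ hn b b' (Or.inl h')
    · exact_mod_cast VP0_inj _ _ _ _ _ hn b b' (Or.inr h')
    · exact_mod_cast (VP0_inj _ _ _ _ _ hn b' b (Or.inr (by omega))).symm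
  · omega
  · omega
  · have r1 := VP1_range _ _ _ hn b
    have r2 := VP1_range _ _ _ hn b'
    rcases dvd_small _ (by positivity) _ h (by omega) (by omega) with h' | h' | h'
    · exact_mod_cast VP1_inj _ _ _ _ _ hn b b' (Or.inl h')
    · exact_mod_cast VP1_inj _ _ _ _ _ hn b b' (Or.inr h')
    · exact_mod_cast (VP1_inj _ _ _ _ _ hn b' b (Or.inr (by omega))).symm

theorem Q_inj (n s u : ℕ) (hs : s < 16 * n + 16) (hu : u < 16 * n + 16)
    (h : (8 * ((n : ℤ) + 1)) ∣ Q n s - Q n u) (hc : D n s = D n u) : s = u := by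
  have hn : (0 : ℤ) ≤ n := by positivity
  rcases Q_spec n s hs with ⟨a, b⟩ | ⟨a, b⟩ <;> rcases Q_spec n u hu with ⟨a', b'⟩ | ⟨a', b'⟩
  · have r1 := QP0_range _ _ _ hn b
    have r2 := QP0_range _ _ _ hn b'
    rcases dvd_small _ (by positivity) _ h (by omega) (by omega) with h' | h' | h'
    · exact_mod_cast QP0_inj _ _ _ _ _ hn b b' (Or.inl h')
    · exact_mod_cast QP0_inj _ _ _ _ _ hn b b' (Or.inr h')
    · exact_mod_cast (QP0_inj _ _ _ _ _ hn b' b (Or.inr (by omega))).symm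
  · omega
  · omega
  · have r1 := QP1_range _ _ _ hn b
    have r2 := QP1_range _ _ _ hn b'
    rcases dvd_small _ (by positivity) _ h (by omega) (by omega) with h' | h' | h'
    · exact_mod_cast QP1_inj _ _ _ _ _ hn b b' (Or.inl h')
    · exact_mod_cast QP1_inj _ _ _ _ _ hn b b' (Or.inr h')
    · exact_mod_cast (QP1_inj _ _ _ _ _ hn b' b (Or.inr (by omega))).symm

/-- The model group `Z_{8(n+1)} ⋊ Z_2` (`b` acting by `4 (n + 1) - 1`) is harmonious. -/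
theorem model (n : ℕ)
    (hr : (((4 * (n + 1) - 1 : ℕ) : ZMod (8 * (n + 1)))) * ((4 * (n + 1) - 1 : ℕ) : ZMod (8 * (n + 1))) = 1) :
    letI := Tw.group (8 * (n + 1)) ((4 * (n + 1) - 1 : ℕ) : ZMod (8 * (n + 1))) hr
    Harmonious (Tw (8 * (n + 1)) ((4 * (n + 1) - 1 : ℕ) : ZMod (8 * (n + 1)))) := by
  have hN : 8 * (n + 1) * 2 = 16 * n + 16 := by ring
  have hNc : ((8 * (n + 1) : ℕ) : ℤ) = 8 * ((n : ℤ) + 1) := by push_cast; ring
  refine harm_tw (8 * (n + 1)) (by omega) _ hr (ρ n) (hρ n) (V n) (C n) (Q n) (D n)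
    ?_ ?_ ?_ ?_ ?_ ?_ ?_
  · intro s hs; exact C_le n s (by omega)
  · rw [hN]; exact (wrap n).1
  · rw [hN]; exact (wrap n).2
  · intro s hs
    obtain ⟨⟨e, he⟩, -⟩ := step n s (by omega)
    rw [hNc]
    exact ⟨e, he⟩
  · intro s hs
    exact (step n s (by omega)).2
  · intro s u hs hu h hc
    rw [hNc] at h
    exact V_inj n s u (by omega) (by omega) h hc
  · intro s u hs hu h hc
    rw [hNc] at h
    exact Q_inj n s u (by omega) (by omega) h hc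

/-- The semidihedral group
`SD_{2^n} = ⟨a, b | a^{2^{n-1}} = b² = 1, b a b⁻¹ = a^{2^{n-2} - 1}⟩`. -/
abbrev SemidihedralGroup (n : ℕ) : Type :=
  PresentedGroup ({FreeGroup.of false ^ 2 ^ (n - 1), FreeGroup.of true ^ 2,
    FreeGroup.of true * FreeGroup.of false * (FreeGroup.of true)⁻¹ *
      (FreeGroup.of false ^ (2 ^ (n - 2) - 1))⁻¹} : Set (FreeGroup Bool))

theorem card_and_harm (n : ℕ) (hn : 4 ≤ n) :
    Nat.card (SemidihedralGroup n) = 2 ^ n ∧ Harmonious (SemidihedralGroup n) := by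
  obtain ⟨m, rfl⟩ : ∃ m, n = m + 4 := ⟨n - 4, by omega⟩
  obtain ⟨p, hp⟩ : ∃ p, 2 ^ m = p + 1 := ⟨2 ^ m - 1, by have := Nat.one_le_two_pow (n := m); omega⟩
  have h1 : 2 ^ (m + 4 - 1) = 8 * (p + 1) := by
    rw [← hp, show m + 4 - 1 = m + 3 by omega, pow_add]; ring
  have h2 : 2 ^ (m + 4 - 2) = 4 * (p + 1) := by
    rw [← hp, show m + 4 - 2 = m + 2 by omega, pow_add]; ring
  have hN : NeZero (8 * (p + 1)) := ⟨by omega⟩
  have h8 : ((8 : ZMod (8 * (p + 1))) * ((p : ZMod (8 * (p + 1))) + 1)) = 0 := by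
    have := ZMod.natCast_self (8 * (p + 1))
    push_cast at this
    exact this
  have hr : (((4 * (p + 1) - 1 : ℕ) : ZMod (8 * (p + 1)))) * ((4 * (p + 1) - 1 : ℕ) : ZMod (8 * (p + 1))) = 1 := by
    rw [cast_sub (p + 1) (by omega)]
    push_cast
    linear_combination (2 * ((p : ZMod (8 * (p + 1))) + 1) - 1) * h8
  let _ := Tw.group (8 * (p + 1)) ((4 * (p + 1) - 1 : ℕ) : ZMod (8 * (p + 1))) hr
  obtain ⟨e⟩ := pres_equiv (8 * (p + 1)) (4 * (p + 1) - 1) hr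
  have hS := (model p hr).of_mulEquiv e
  have hC : Nat.card (Pres (8 * (p + 1)) (4 * (p + 1) - 1)) = 2 ^ (m + 4) := by
    rw [← Nat.card_congr e.toEquiv, card_tw, ← hp, pow_add]; ring
  have h3 : (rels (8 * (p + 1)) (4 * (p + 1) - 1)) = ({FreeGroup.of false ^ 2 ^ (m + 4 - 1),
      FreeGroup.of true ^ 2, FreeGroup.of true * FreeGroup.of false * (FreeGroup.of true)⁻¹ *
      (FreeGroup.of false ^ (2 ^ (m + 4 - 2) - 1))⁻¹} : Set (FreeGroup Bool)) := by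
    unfold rels; rw [h1, h2]
  unfold Pres at hS hC
  rw [h3] at hS hC
  exact ⟨hC, hS⟩

/-- **MP_3abf0f, Q1.** For every `n ≥ 4`, `SD_{2^n}` (of order `2^n`) is harmonious. -/
theorem _root_.Pool.Agent.Results.MP_3abf0f_al.SemidihedralHarmonious.result :
    ∀ n : ℕ, 4 ≤ n → Nat.card (SemidihedralGroup n) = 2 ^ n ∧
      Harmonious (SemidihedralGroup n) :=
  card_and_harm

end Pool.Agent.Results.MP_3abf0f_al.SemidihedralHarmonious
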